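import Mathlib
import Pool.Agent.H94.IC.Targets2

/-!
# Insulating cracks: the distance to the invisible set along the flow (module DST)
-/

open MeasureTheory Set Filter Topology Metric
open scoped ENNReal NNReal ContDiff RealInnerProductSpace

namespace Pool.Agent.H97.IC
open Pool.Agent.H94.IC

/-- comparison of derivatives at a touching point -/
theorem deriv_touch {ψ : ℝ → ℝ} {D : ℝ → E} {m L : ℝ} {D' : E} (hψ : HasDerivAt ψ m 0)
    (hD : HasDerivAt D D' 0) (h0 : ψ 0 = ‖D 0‖) (hle : ∀ᶠ t in 𝓝 (0 : ℝ), ψ t ≤ ‖D t‖)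
    (hL : ‖D'‖ ≤ L * ‖D 0‖) : |m| ≤ L * ‖D 0‖ := by
  apply le_of_forall_pos_le_add
  intro ε hε
  have h1 := (hasDerivAt_iff_isLittleO.1 hψ).def (half_pos hε)
  have h2 := (hasDerivAt_iff_isLittleO.1 hD).def (half_pos hε)
  obtain ⟨δ, hδ, h3⟩ := Metric.eventually_nhds_iff.1 ((h1.and h2).and hle)
  have key : ∀ t : ℝ, |t| < δ → m * t ≤ |t| * (L * ‖D 0‖ + ε) := by
    intro t ht
    obtain ⟨⟨h4, h5⟩, h6⟩ := h3 (y := t) (by simpa [Real.dist_eq] using ht)
    simp only [sub_zero, smul_eq_mul, Real.norm_eq_abs] at h4 h5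
    have h7 := (abs_le.1 h4).1
    have h8 : ‖D t‖ ≤ ‖D 0‖ + |t| * (L * ‖D 0‖) + ε / 2 * |t| := by
      calc ‖D t‖ = ‖D 0 + t • D' + (D t - D 0 - t • D')‖ := by congr 1; abel
        _ ≤ ‖D 0‖ + ‖t • D'‖ + ‖D t - D 0 - t • D'‖ := by
          refine (norm_add_le _ _).trans ?_
          gcongr
          exact norm_add_le _ _
        _ ≤ ‖D 0‖ + |t| * (L * ‖D 0‖) + ε / 2 * |t| := by
          rw [norm_smul, Real.norm_eq_abs]
          gcongr
    nlinarith
  have ha : |δ / 2| < δ := by rw [abs_of_pos (by positivity)]; linarith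
  have hb : |(-(δ / 2))| < δ := by rw [abs_neg]; exact ha
  have k1 := key (δ / 2) ha
  have k2 := key (-(δ / 2)) hb
  rw [abs_neg] at k2
  rw [abs_of_pos (by positivity : (0 : ℝ) < δ / 2)] at k1 k2
  have hδ2 : 0 < δ / 2 := by positivity
  rw [abs_le]
  constructor
  · have : (δ / 2) * (-m) ≤ (δ / 2) * (L * ‖D 0‖ + ε) := by linarith
    have := le_of_mul_le_mul_left this hδ2
    linarith
  · have : (δ / 2) * m ≤ (δ / 2) * (L * ‖D 0‖ + ε) := by linarith
    exact le_of_mul_le_mul_left this hδ2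

/-- global integral curves of bounded Lipschitz fields -/
theorem exists_curve {X : E → E} {K : ℝ≥0} {M : ℝ} (hX : LipschitzWith K X)
    (hM : ∀ x, ‖X x‖ ≤ M) (z : E) {t0 : ℝ} (ht0 : 0 < t0) :
    ∃ γ : ℝ → E, γ 0 = z ∧ ∀ t ∈ Ioo (-t0) t0, HasDerivAt γ (X (γ t)) t := by
  have hM0 : 0 ≤ M := (norm_nonneg _).trans (hM z)
  have h0 : (0 : ℝ) ∈ Icc (-t0) t0 := ⟨by linarith, ht0.le⟩
  have hPL : IsPicardLindelof (fun _ => X) (⟨0, h0⟩ : Icc (-t0) t0) z
      (⟨M * t0, by positivity⟩ : ℝ≥0) 0 ⟨M, hM0⟩ K := by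
    apply IsPicardLindelof.of_time_independent
    · intro x _; exact hM x
    · exact hX.lipschitzOnWith
    · simp only [sub_zero, zero_sub, neg_neg, max_self, NNReal.coe_zero]
      exact le_refl _
  obtain ⟨γ, h1, h2⟩ := hPL.exists_eq_forall_mem_Icc_hasDerivWithinAt₀
  refine ⟨γ, h1, fun t ht => ?_⟩
  exact (h2 t ⟨ht.1.le, ht.2.le⟩).hasDerivAt (Icc_mem_nhds ht.1 ht.2)

theorem pd_congr {f g : E → ℝ} {x : E} (k : Fin 3) (h : f =ᶠ[𝓝 x] g) :
    pd k f =ᶠ[𝓝 x] pd k g := by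
  filter_upwards [h.fderiv (𝕜 := ℝ)] with y hy
  simp only [pd, hy]

theorem gr_congr {f g : E → ℝ} {x : E} (h : f =ᶠ[𝓝 x] g) : gr f x = gr g x := by
  simp only [gr, gradient]
  rw [h.fderiv_eq]

/-- cutting off harmonic functions -/
theorem cutoff {N : ℕ} {O : Set E} {u : Fin N → E → ℝ} {p : E} (hO : IsOpen O) (hp : p ∈ O)
    (hu : ∀ j, Harm O (u j)) : ∃ (ρ : ℝ) (u' : Fin N → E → ℝ), 0 < ρ ∧ ball p ρ ⊆ O ∧
      (∀ j, ∀ x ∈ ball p ρ, u' j x = u j x) ∧ (∀ j, ContDiff ℝ ∞ (u' j)) ∧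
      (∀ j, HasCompactSupport (u' j)) ∧ ∀ j, Harm (ball p ρ) (u' j) := by
  obtain ⟨R, hR, hRO⟩ := Metric.isOpen_iff.1 hO p hp
  let χ : ContDiffBump p := ⟨R / 4, R / 2, by positivity, by linarith⟩
  have hsupp : tsupport χ ⊆ O := by
    rw [χ.tsupport_eq]
    exact (closedBall_subset_ball (by show R / 2 < R; linarith)).trans hRO
  have hbO : ball p (R / 4) ⊆ O := (ball_subset_ball (by linarith)).trans hRO
  have heq : ∀ j, ∀ x ∈ ball p (R / 4), χ x * u j x = u j x := by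
    intro j x hx
    rw [χ.one_of_mem_closedBall (ball_subset_closedBall hx), one_mul]
  have hsm : ∀ j, ContDiff ℝ ∞ (fun x => χ x * u j x) := by
    intro j
    rw [contDiff_iff_contDiffAt]
    intro x
    by_cases hx : x ∈ O
    · exact χ.contDiffAt.mul ((hu j).1.contDiffAt (hO.mem_nhds hx))
    · have h1 : x ∉ tsupport χ := fun h => hx (hsupp h)
      have h2 : (fun x => χ x * u j x) =ᶠ[𝓝 x] fun _ => 0 := by
        filter_upwards [notMem_tsupport_iff_eventuallyEq.1 h1] with y hy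
        simp [hy]
      exact contDiffAt_const.congr_of_eventuallyEq h2
  refine ⟨R / 4, fun j x => χ x * u j x, by positivity, hbO, heq, hsm, ?_, ?_⟩
  · intro j
    exact χ.hasCompactSupport.mul_right
  · intro j
    refine ⟨(hsm j).contDiffOn, ?_⟩
    intro x hx
    have h1 : (fun x => χ x * u j x) =ᶠ[𝓝 x] u j := by
      filter_upwards [isOpen_ball.mem_nhds hx] with y hy
      exact heq j y hy
    rw [← (hu j).2 x (hbO hx)]
    refine Finset.sum_congr rfl fun k _ => ?_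
    exact (pd_congr k (pd_congr k h1)).eq_of_nhds

/-- module DST -/
theorem dst (hI : T_INV) (hC : T_INC) (hL : T_LOC) : T_DST := by
  intro N O u i p hO hp hu
  obtain ⟨ρ, u', hρ, hρO, heq, hsm, hcs, hu'⟩ := cutoff hO hp hu
  have hpB : p ∈ ball p ρ := mem_ball_self hρ
  obtain ⟨r0, t0, hr0, ht0, hr0B, hinv⟩ := hI N (ball p ρ) u' i p isOpen_ball hpB hu'
  -- the field
  set X : E → E := gr (u' i) with hX
  have hXsm : ContDiff ℝ 1 X := by
    have h1 : ContDiff ℝ 1 (fderiv ℝ (u' i)) :=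
      ((contDiff_infty.1 (hsm i)) 2).fderiv_right (by norm_num)
    have h2 : X = fun x => (InnerProductSpace.toDual ℝ E).symm (fderiv ℝ (u' i) x) := rfl
    rw [h2]
    exact (InnerProductSpace.toDual ℝ E).symm.contDiff.comp h1
  have hXcs : HasCompactSupport X := by
    have h1 : HasCompactSupport (fderiv ℝ (u' i)) := (hcs i).fderiv ℝ
    exact h1.comp_left (g := (InnerProductSpace.toDual ℝ E).symm) (map_zero _)
  obtain ⟨K, hK⟩ := ContDiff.lipschitzWith_of_hasCompactSupport hXcs hXsm (by simp)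
  obtain ⟨M, hM⟩ := hXcs.exists_bound_of_continuous hXsm.continuous
  have hXu : ∀ x ∈ ball p ρ, X x = gr (u i) x := by
    intro x hx
    apply gr_congr
    filter_upwards [isOpen_ball.mem_nhds hx] with y hy
    exact heq i y hy
  have hloc : ∀ x ∈ ball p ρ, (x ∈ Inv O u ↔ x ∈ Inv (ball p ρ) u') := by
    intro x hx
    exact hL N O (ball p ρ) u u' x hO isOpen_ball (hρO hx) hx
      (fun j y hy => (heq j y hy.2).symm)
  set r := r0 / 5 with hr
  have hrpos : 0 < r := by positivity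
  have h4 : closedBall p (4 * r) ⊆ ball p r0 := closedBall_subset_ball (by rw [hr]; linarith)
  have h3 : closedBall p (3 * r) ⊆ ball p r0 := closedBall_subset_ball (by rw [hr]; linarith)
  refine ⟨r, K, hrpos, K.2, (h4.trans hr0B).trans hρO, ?_⟩
  intro x hx hne hlt hdiff
  set Z := Inv O u ∩ closedBall p (3 * r) with hZ
  have hZc : IsClosed Z := by
    rw [← isOpen_compl_iff, isOpen_iff_mem_nhds]
    intro y hy
    by_cases hyb : y ∈ closedBall p (3 * r)
    · have hyO : y ∈ O := hρO (hr0B (h3 hyb))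
      have hyI : y ∉ Inv O u := fun h => hy ⟨h, hyb⟩
      have := ((hC N O u hO hu).2.1 y hyO hyI)
      filter_upwards [this] with z hz
      exact fun h => hz h.1
    · filter_upwards [isClosed_closedBall.isOpen_compl.mem_nhds hyb] with z hz
      exact fun h => hz h.2
  obtain ⟨y, hyZ, hyd⟩ := hZc.exists_infDist_eq_dist hne x
  have hxr0 : x ∈ ball p r0 := h3 (ball_subset_closedBall.trans
    (closedBall_subset_closedBall (by linarith)) hx)
  have hyr0 : y ∈ ball p r0 := h3 hyZ.2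
  obtain ⟨γ, hγ0, hγ⟩ := exists_curve hK hM y ht0
  have hinv' := hinv γ hγ (by rw [hγ0]; exact hyr0)
    (by rw [hγ0]; exact (hloc y (hr0B hyr0)).1 hyZ.1)
  have hγd0 : HasDerivAt γ (X y) 0 := by
    have := hγ 0 ⟨by linarith, ht0⟩
    rwa [hγ0] at this
  have hyp : y ∈ ball p (3 * r) := by
    rw [mem_ball] at hx ⊢
    rw [hyd] at hlt
    calc dist y p ≤ dist y x + dist x p := dist_triangle _ _ _
      _ < r + r := by
        rw [dist_comm y x]
        exact add_lt_add hlt hx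
      _ ≤ 3 * r := by linarith
  have hev : ∀ᶠ t in 𝓝 (0 : ℝ), γ t ∈ Z := by
    have e1 : ∀ᶠ t in 𝓝 (0 : ℝ), γ t ∈ ball p (3 * r) := by
      apply hγd0.continuousAt
      rw [hγ0]
      exact isOpen_ball.mem_nhds hyp
    have e2 : ∀ᶠ t in 𝓝 (0 : ℝ), t ∈ Ioo (-t0) t0 := Ioo_mem_nhds (by linarith) ht0
    filter_upwards [e1, e2] with t ht1 ht2
    have hb : γ t ∈ ball p ρ := hr0B (h3 (ball_subset_closedBall ht1))
    exact ⟨(hloc _ hb).2 (hinv' t ht2), ball_subset_closedBall ht1⟩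
  -- the comparison
  have hline : HasDerivAt (fun t : ℝ => x + t • X x) (X x) 0 := by
    simpa using ((hasDerivAt_id (0 : ℝ)).smul_const (X x)).const_add x
  have hψ : HasDerivAt (fun t : ℝ => infDist (x + t • X x) Z)
      (fderiv ℝ (fun y => infDist y Z) x (X x)) 0 := by
    have h1 : HasFDerivAt (fun y => infDist y Z) (fderiv ℝ (fun y => infDist y Z) x)
        (x + (0 : ℝ) • X x) := by
      simpa using hdiff.hasFDerivAt
    exact h1.comp_hasDerivAt 0 hline
  have hD : HasDerivAt (fun t : ℝ => x + t • X x - γ t) (X x - X y) 0 := hline.sub hγd0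
  have hres := deriv_touch (L := K) hψ hD (by simp [hγ0, hyd, dist_eq_norm])
    (by
      filter_upwards [hev] with t ht
      rw [← dist_eq_norm]
      exact infDist_le_dist_of_mem ht)
    (by
      simp only [zero_smul, add_zero, hγ0]
      exact hK.norm_sub_le x y)
  rw [← hXu x (hr0B hxr0), hyd]
  simpa [hγ0, dist_eq_norm] using hres

end Pool.Agent.H97.IC
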