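import Mathlib
import Pool.Agent.H94.IC.Targets2

/-!
# Insulating cracks: surfaces contained in analytic sets give graph points (module GPE)
-/

open MeasureTheory Set Filter Topology Metric
open scoped ENNReal NNReal ContDiff RealInnerProductSpace

namespace Pool.Agent.H97.IC
open Pool.Agent.H94.IC

open Classical in
/-- module GPE -/
theorem gpe (hR : T_RMG) : T_GPE := by
  intro Y Ψ p hp hp0 hY hAN N hN
  by_contra hcon
  push Not at hcon
  -- a small connected neighbourhood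
  have htgt : Ψ p ∈ Ψ.target := Ψ.map_source hp
  have hc : ContinuousAt Ψ.symm (Ψ p) := Ψ.continuousAt_symm htgt
  have h1 : Ψ.symm ⁻¹' N ∈ 𝓝 (Ψ p) := by
    apply hc
    rw [Ψ.left_inv hp]
    exact hN
  obtain ⟨ε, hε, hsub⟩ := Metric.mem_nhds_iff.1 (Filter.inter_mem h1 (Ψ.open_target.mem_nhds htgt))
  set B := ball (Ψ p) ε with hB
  have hBt : B ⊆ Ψ.target := fun x hx => (hsub hx).2
  set W := Ψ.symm '' B with hW
  have hWo : IsOpen W := Ψ.symm.isOpen_image_of_subset_source isOpen_ball hBt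
  have hWc : IsPreconnected W :=
    (convex_ball (Ψ p) ε).isPreconnected.image _ (Ψ.symm.continuousOn.mono hBt)
  have hWs : W ⊆ Ψ.source := by
    rintro x ⟨y, hy, rfl⟩
    exact Ψ.map_target (hBt hy)
  have hWN : W ⊆ N := by
    rintro x ⟨y, hy, rfl⟩
    exact (hsub hy).1
  obtain ⟨-, h2, h3⟩ := hR Y W hWo (fun x hx => hAN x (hWs hx))
  set s : E → ℤˣ := fun x => if 0 < (Ψ x) 2 then 1 else -1 with hs
  have hcoord : ∀ x ∈ W, ContinuousAt (fun y => (Ψ y) 2) x := by
    intro x hx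
    have h4 : Continuous fun y : E => y 2 := by fun_prop
    exact h4.continuousAt.comp (Ψ.continuousAt (hWs hx))
  have hLC : LC Y W s := by
    rintro x ⟨hx, hxY⟩
    have hne : (Ψ x) 2 ≠ 0 := fun h0 => hxY (hY x (hWs hx) h0)
    rcases lt_or_gt_of_ne hne with hlt | hgt
    · have := (hcoord x hx).eventually_lt_const hlt
      filter_upwards [this] with y hy
      simp only [hs]
      rw [if_neg (not_lt.2 hy.le), if_neg (not_lt.2 hlt.le)]
    · have := (hcoord x hx).eventually_const_lt hgt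
      filter_upwards [this] with y hy
      simp only [hs]
      rw [if_pos hy, if_pos hgt]
  obtain ⟨-, h4⟩ := h3 s hLC (fun q hq hG => absurd hG (hcon q (hWN hq)))
  obtain ⟨c, hc⟩ := h4 hWc
  -- points on both sides
  have hco : ContinuousOn (fun y => (Ψ y) 2) W := fun x hx => (hcoord x hx).continuousWithinAt
  have side : ∀ d : ℝ, |d| < ε → ∃ y ∈ W, (Ψ y) 2 = d := by
    intro d hd
    have hmem : Ψ p + EuclideanSpace.single 2 d ∈ B := by
      rw [hB, mem_ball, dist_self_add_left]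
      simpa using hd
    refine ⟨Ψ.symm (Ψ p + EuclideanSpace.single 2 d), ⟨_, hmem, rfl⟩, ?_⟩
    rw [Ψ.right_inv (hBt hmem)]
    simp [hp0]
  have hpos : (W ∩ (fun y => (Ψ y) 2) ⁻¹' Ioi 0).Nonempty := by
    obtain ⟨y, hy, hy2⟩ := side (ε / 2) (by rw [abs_of_pos (by positivity)]; linarith)
    exact ⟨y, hy, by show (0 : ℝ) < (Ψ y) 2; rw [hy2]; positivity⟩
  have hneg : (W ∩ (fun y => (Ψ y) 2) ⁻¹' Iio 0).Nonempty := by
    obtain ⟨y, hy, hy2⟩ := side (-(ε / 2)) (by rw [abs_neg, abs_of_pos (by positivity)]; linarith)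
    exact ⟨y, hy, by show (Ψ y) 2 < 0; rw [hy2]; linarith⟩
  obtain ⟨x1, hx1, hx1Y⟩ := h2 _ (hco.isOpen_inter_preimage hWo isOpen_Ioi) inter_subset_left hpos
  obtain ⟨x2, hx2, hx2Y⟩ := h2 _ (hco.isOpen_inter_preimage hWo isOpen_Iio) inter_subset_left hneg
  have e1 := hc x1 ⟨hx1.1, hx1Y⟩
  have e2 := hc x2 ⟨hx2.1, hx2Y⟩
  have hx1' : 0 < (Ψ x1) 2 := hx1.2
  have hx2' : (Ψ x2) 2 < 0 := hx2.2
  simp only [hs] at e1 e2
  rw [if_pos hx1'] at e1
  rw [if_neg (not_lt.2 hx2'.le)] at e2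
  rw [← e1] at e2
  exact absurd e2 (by decide)

end Pool.Agent.H97.IC
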