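import Mathlib
import Pool.Agent.H94.IC.Targets1

/-!
# Insulating cracks: parity boxes carry good sign functions (module SGN)
-/

open MeasureTheory Set Filter Topology Metric
open scoped ENNReal NNReal ContDiff RealInnerProductSpace

namespace Pool.Agent.H97.IC
open Pool.Agent.H94.IC

section coords
variable (T : E ≃ₗᵢ[ℝ] E) (p : E)

/-- coordinates -/
noncomputable def co (x : E) : (ℝ × ℝ) × ℝ :=
  (((T (x - p)) 0, (T (x - p)) 1), (T (x - p)) 2)

theorem co_pt (a : ℝ × ℝ) (t : ℝ) : co T p (pt T p a t) = (a, t) := by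
  simp [co, pt]

theorem pt_co (x : E) : pt T p (co T p x).1 (co T p x).2 = x := by
  have : (!₂[(T (x - p)) 0, (T (x - p)) 1, (T (x - p)) 2] : E) = T (x - p) := by
    ext i; fin_cases i <;> simp
  simp only [co, pt]
  rw [this]; simp

theorem continuous_co : Continuous (co T p) := by
  unfold co
  fun_prop

theorem continuous_pt : Continuous (fun q : (ℝ × ℝ) × ℝ => pt T p q.1 q.2) := by
  unfold pt
  fun_prop

theorem mem_Bx_iff {r h : ℝ} (x : E) :
    x ∈ Bx T p r h ↔ (co T p x).1 ∈ Sq r ∧ (co T p x).2 ∈ Ioo (-h) h := by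
  simp only [Bx, Sq, co, mem_setOf_eq, mem_Ioo, abs_lt]
  tauto

theorem isOpen_Sq (r : ℝ) : IsOpen (Sq r) := by
  have h1 : Continuous fun a : ℝ × ℝ => |a.1| := by fun_prop
  have h2 : Continuous fun a : ℝ × ℝ => |a.2| := by fun_prop
  exact (isOpen_lt h1 continuous_const).inter (isOpen_lt h2 continuous_const)

theorem isOpen_Bx (r h : ℝ) : IsOpen (Bx T p r h) := by
  have : Bx T p r h = co T p ⁻¹' (Sq r ×ˢ Ioo (-h) h) := by
    ext x; rw [mem_Bx_iff]; rfl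
  rw [this]
  exact ((isOpen_Sq r).prod isOpen_Ioo).preimage (continuous_co T p)

end coords

/-- the number of points of `Y` below -/
noncomputable def NN (Y : Set E) (p : E) (T : E ≃ₗᵢ[ℝ] E) (h : ℝ) (b : ℝ × ℝ) (t : ℝ) : ℕ :=
  {t' | t' ∈ Ioo (-h) t ∧ pt T p b t' ∈ Y}.ncard

open Classical in
/-- the parity -/
noncomputable def cc {Y : Set E} {p : E} {T : E ≃ₗᵢ[ℝ] E} {r h : ℝ} {A : Set (ℝ × ℝ)}
    (H : PB Y p T r h A) (x : E) : ℕ :=
  if hx : (co T p x).1 ∈ Sq r ∧ (co T p x).2 ∈ Ioo (-h) h ∧ x ∉ Y then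
    (H.par (co T p x).1 hx.1 (co T p x).2 hx.2.1 (by rw [pt_co]; exact hx.2.2)).choose_spec.2.choose
  else 0

theorem cc_spec {Y : Set E} {p : E} {T : E ≃ₗᵢ[ℝ] E} {r h : ℝ} {A : Set (ℝ × ℝ)}
    (H : PB Y p T r h A) {a : ℝ × ℝ} {t : ℝ} (ha : a ∈ Sq r) (ht : t ∈ Ioo (-h) h)
    (hY : pt T p a t ∉ Y) :
    ∃ ε > 0, ∀ b ∈ A ∩ ball a ε, NN Y p T h b t % 2 = cc H (pt T p a t) % 2 := by
  have hx : (co T p (pt T p a t)).1 ∈ Sq r ∧ (co T p (pt T p a t)).2 ∈ Ioo (-h) h ∧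
      pt T p a t ∉ Y := by
    rw [co_pt]; exact ⟨ha, ht, hY⟩
  have hco := co_pt T p a t
  have key := (H.par (co T p (pt T p a t)).1 hx.1 (co T p (pt T p a t)).2 hx.2.1
    (by rw [pt_co]; exact hx.2.2)).choose_spec
  refine ⟨_, key.1, ?_⟩
  intro b hb
  have k2 := key.2.choose_spec b
  unfold cc
  rw [dif_pos hx]
  have := k2 (by simpa [hco] using hb)
  unfold NN
  rw [← this]
  simp [hco]

theorem NN_congr {Y : Set E} {p : E} {T : E ≃ₗᵢ[ℝ] E} {h : ℝ} {b : ℝ × ℝ} {t t' : ℝ}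
    (h1 : ∀ u, min t t' ≤ u → u ≤ max t t' → pt T p b u ∉ Y) :
    NN Y p T h b t = NN Y p T h b t' := by
  unfold NN
  congr 1
  ext u
  simp only [mem_Ioo, mem_setOf_eq]
  constructor
  · rintro ⟨⟨hu1, hu2⟩, hu3⟩
    refine ⟨⟨hu1, ?_⟩, hu3⟩
    by_contra hcon
    push Not at hcon
    exact h1 u (le_trans (min_le_right _ _) hcon) (le_trans hu2.le (le_max_left _ _)) hu3
  · rintro ⟨⟨hu1, hu2⟩, hu3⟩
    refine ⟨⟨hu1, ?_⟩, hu3⟩
    by_contra hcon
    push Not at hcon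
    exact h1 u (le_trans (min_le_left _ _) hcon) (le_trans hu2.le (le_max_right _ _)) hu3

theorem NN_succ {Y : Set E} {p : E} {T : E ≃ₗᵢ[ℝ] E} {r h : ℝ} {A : Set (ℝ × ℝ)}
    (H : PB Y p T r h A) {b : ℝ × ℝ} {t δ : ℝ} (hb : b ∈ Sq r) (hδ : 0 < δ)
    (h0 : -h < t) (h3 : t + δ < h)
    (h1 : ∀ u, |u - t| ≤ δ → (pt T p b u ∈ Y ↔ u = t)) :
    NN Y p T h b (t + δ) = NN Y p T h b (t - δ) + 1 := by
  unfold NN
  have hfin : {t' | t' ∈ Ioo (-h) (t - δ) ∧ pt T p b t' ∈ Y}.Finite := by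
    refine (H.fin b hb).subset ?_
    rintro u ⟨⟨hu1, hu2⟩, hu3⟩
    exact ⟨⟨hu1, by linarith⟩, hu3⟩
  have heq : {t' | t' ∈ Ioo (-h) (t + δ) ∧ pt T p b t' ∈ Y} =
      insert t {t' | t' ∈ Ioo (-h) (t - δ) ∧ pt T p b t' ∈ Y} := by
    ext u
    simp only [mem_Ioo, mem_setOf_eq, mem_insert_iff]
    constructor
    · rintro ⟨⟨hu1, hu2⟩, hu3⟩
      by_cases hc : u < t - δ
      · exact Or.inr ⟨⟨hu1, hc⟩, hu3⟩
      · left
        push Not at hc
        exact (h1 u (by rw [abs_le]; constructor <;> linarith)).1 hu3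
    · rintro (rfl | ⟨⟨hu1, hu2⟩, hu3⟩)
      · exact ⟨⟨h0, by linarith⟩, (h1 u (by simp [hδ.le])).2 rfl⟩
      · exact ⟨⟨hu1, by linarith⟩, hu3⟩
  rw [heq, ncard_insert_of_notMem _ hfin]
  simp only [mem_Ioo, mem_setOf_eq, not_and]
  intro h4
  exfalso
  linarith [h4.2]

/-- crossing lemma -/
theorem cross {V : Set E} (hV : IsOpen V) (hcv : Convex ℝ V) {φ : E → ℝ} (hφ : ContinuousOn φ V)
    {q v : E} (hq : q ∈ V) (hcl : q ∈ closure {x | x ∈ V ∧ φ x < 0}) (hv : q + v ∈ V)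
    (hv0 : 0 < φ (q + v)) :
    IsOpen {z | z ∈ V ∧ φ z < 0 ∧ z + v ∈ V ∧ 0 < φ (z + v)} ∧
    {z | z ∈ V ∧ φ z < 0 ∧ z + v ∈ V ∧ 0 < φ (z + v)}.Nonempty ∧
    ∀ z ∈ {z | z ∈ V ∧ φ z < 0 ∧ z + v ∈ V ∧ 0 < φ (z + v)}, ∃ u : ℝ, z + u • v ∈ V ∧
      φ (z + u • v) = 0 := by
  have h1 : IsOpen (V ∩ φ ⁻¹' (Iio 0)) := hφ.isOpen_inter_preimage hV isOpen_Iio
  have h2 : IsOpen (V ∩ φ ⁻¹' (Ioi 0)) := hφ.isOpen_inter_preimage hV isOpen_Ioi
  have h3 : IsOpen ((fun z => z + v) ⁻¹' (V ∩ φ ⁻¹' (Ioi 0))) :=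
    h2.preimage (by fun_prop)
  have heq : {z | z ∈ V ∧ φ z < 0 ∧ z + v ∈ V ∧ 0 < φ (z + v)} =
      (V ∩ φ ⁻¹' (Iio 0)) ∩ ((fun z => z + v) ⁻¹' (V ∩ φ ⁻¹' (Ioi 0))) := by
    ext z
    simp only [mem_setOf_eq, mem_inter_iff, mem_preimage, mem_Iio, mem_Ioi]
    tauto
  refine ⟨by rw [heq]; exact h1.inter h3, ?_, ?_⟩
  · have hmem : (fun z => z + v) ⁻¹' (V ∩ φ ⁻¹' (Ioi 0)) ∈ 𝓝 q :=
      h3.mem_nhds ⟨hv, hv0⟩
    obtain ⟨z, hz1, hz2⟩ := mem_closure_iff_nhds.1 hcl _ hmem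
    refine ⟨z, ?_⟩
    rw [heq]
    exact ⟨⟨hz2.1, hz2.2⟩, hz1⟩
  · rintro z ⟨hz1, hz2, hz3, hz4⟩
    have hseg : ∀ u ∈ Icc (0 : ℝ) 1, z + u • v ∈ V := by
      intro u hu
      have := hcv hz1 hz3 (sub_nonneg.2 hu.2) hu.1 (by ring)
      have e : (1 - u) • z + u • (z + v) = z + u • v := by
        rw [smul_add, sub_smul, one_smul]; abel
      rwa [e] at this
    have hcont : ContinuousOn (fun u : ℝ => φ (z + u • v)) (Icc 0 1) :=
      hφ.comp (by fun_prop) hseg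
    have hivt := intermediate_value_Icc (zero_le_one' ℝ) hcont
    have h0 : (0 : ℝ) ∈ Icc ((fun u : ℝ => φ (z + u • v)) 0) ((fun u : ℝ => φ (z + u • v)) 1) := by
      constructor
      · simpa using hz2.le
      · simpa using hz4.le
    obtain ⟨u, hu, hu0⟩ := hivt h0
    exact ⟨u, hseg u hu, hu0⟩

theorem odd_mod {m n : ℕ} (h : m % 2 = n % 2) : ((-1 : ℤˣ)) ^ m = (-1) ^ n := by
  rw [← Nat.div_add_mod m 2, ← Nat.div_add_mod n 2, h]
  simp [pow_add, pow_mul]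

/-- the sign function -/
noncomputable def sg {Y : Set E} {p : E} {T : E ≃ₗᵢ[ℝ] E} {r h : ℝ} {A : Set (ℝ × ℝ)}
    (H : PB Y p T r h A) (x : E) : ℤˣ := (-1) ^ cc H x

theorem sg_eq {Y : Set E} {p : E} {T : E ≃ₗᵢ[ℝ] E} {r h : ℝ} {A : Set (ℝ × ℝ)}
    (H : PB Y p T r h A) {b : ℝ × ℝ} {t : ℝ} (hb : b ∈ A) (ht : t ∈ Ioo (-h) h)
    (hY : pt T p b t ∉ Y) : sg H (pt T p b t) = (-1) ^ NN Y p T h b t := by
  obtain ⟨ε, hε, h1⟩ := cc_spec H (H.Asub hb) ht hY
  exact odd_mod (h1 b ⟨hb, mem_ball_self hε⟩).symm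

theorem sg_lc {Y : Set E} {p : E} {T : E ≃ₗᵢ[ℝ] E} {r h : ℝ} {A : Set (ℝ × ℝ)}
    (H : PB Y p T r h A) : LC Y (Bx T p r h) (sg H) := by
  rintro x ⟨hx, hxY⟩
  set a := (co T p x).1 with ha
  set t := (co T p x).2 with ht
  have hxe : pt T p a t = x := pt_co T p x
  obtain ⟨haS, htI⟩ := (mem_Bx_iff T p x).1 hx
  have hY : pt T p a t ∉ Y := by rw [hxe]; exact hxY
  obtain ⟨ε, hε, h1⟩ := cc_spec H haS htI hY
  obtain ⟨δ, hδ, h2⟩ := Metric.eventually_nhds_iff.1 (H.closed a haS t htI hY)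
  have hev : ∀ᶠ y in 𝓝 x, y ∈ Bx T p r h ∧ dist (co T p y) (a, t) < min (ε / 2) (δ / 2) := by
    refine Filter.Eventually.and ((isOpen_Bx T p r h).mem_nhds hx) ?_
    have hc := (continuous_co T p).continuousAt (x := x)
    have h3 : co T p x = (a, t) := rfl
    have := Metric.continuousAt_iff.1 hc (min (ε / 2) (δ / 2)) (by positivity)
    obtain ⟨η, hη, h4⟩ := this
    filter_upwards [Metric.ball_mem_nhds x hη] with y hy
    have := h4 hy
    rwa [h3] at this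
  filter_upwards [hev] with y hy
  obtain ⟨hyB, hyd⟩ := hy
  set a' := (co T p y).1 with ha'
  set t' := (co T p y).2 with ht'
  have hye : pt T p a' t' = y := pt_co T p y
  have hyc : co T p y = (a', t') := rfl
  rw [hyc, Prod.dist_eq, max_lt_iff] at hyd
  obtain ⟨hd1, hd2⟩ := hyd
  simp only at hd1 hd2
  obtain ⟨haS', htI'⟩ := (mem_Bx_iff T p y).1 hyB
  have hY' : pt T p a' t' ∉ Y := by
    apply h2 (y := (a', t'))
    rw [Prod.dist_eq, max_lt_iff]
    exact ⟨lt_of_lt_of_le hd1 (le_trans (min_le_right _ _) (by linarith)),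
      lt_of_lt_of_le hd2 (le_trans (min_le_right _ _) (by linarith))⟩
  obtain ⟨ε', hε', h5⟩ := cc_spec H haS' htI' hY'
  -- choose `b ∈ A` near `a'`
  obtain ⟨b, hbA, hbd⟩ := Metric.mem_closure_iff.1 (H.Adense haS') (min ε' (min (ε / 2) (δ / 2)))
    (by positivity)
  rw [dist_comm] at hbd
  have hb1 : b ∈ ball a ε := by
    rw [mem_ball]
    calc dist b a ≤ dist b a' + dist a' a := dist_triangle _ _ _
      _ < ε / 2 + ε / 2 := by
        refine add_lt_add (lt_of_lt_of_le hbd ?_) (lt_of_lt_of_le hd1 (min_le_left _ _))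
        exact le_trans (min_le_right _ _) (min_le_left _ _)
      _ = ε := by ring
  have hb2 : dist b a < δ := by
    calc dist b a ≤ dist b a' + dist a' a := dist_triangle _ _ _
      _ < δ / 2 + δ / 2 := by
        refine add_lt_add (lt_of_lt_of_le hbd ?_) (lt_of_lt_of_le hd1 (min_le_right _ _))
        exact le_trans (min_le_right _ _) (min_le_right _ _)
      _ = δ := by ring
  have hb3 : b ∈ ball a' ε' := by
    rw [mem_ball]
    exact lt_of_lt_of_le hbd (min_le_left _ _)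
  have e1 := h1 b ⟨hbA, hb1⟩
  have e2 := h5 b ⟨hbA, hb3⟩
  have e3 : NN Y p T h b t = NN Y p T h b t' := by
    apply NN_congr
    intro u hu1 hu2
    apply h2 (y := (b, u))
    rw [Prod.dist_eq, max_lt_iff]
    refine ⟨hb2, ?_⟩
    have h6 : |t' - t| < δ := by
      have := lt_of_lt_of_le hd2 (min_le_right _ _)
      rw [Real.dist_eq] at this
      linarith
    rw [Real.dist_eq]
    rw [abs_lt] at h6 ⊢
    rcases le_total t t' with h7 | h7
    · rw [min_eq_left h7] at hu1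
      rw [max_eq_right h7] at hu2
      constructor <;> linarith
    · rw [min_eq_right h7] at hu1
      rw [max_eq_left h7] at hu2
      constructor <;> linarith
  unfold sg
  apply odd_mod
  rw [hxe] at e1
  rw [hye] at e2
  rw [← e2, ← e1, e3]

/-- there are points of `Y` over `A` near graph points -/
theorem exists_over {Y : Set E} {p : E} {T : E ≃ₗᵢ[ℝ] E} {r h : ℝ} {A : Set (ℝ × ℝ)}
    (H : PB Y p T r h A) {q : E} (hq : q ∈ Bx T p r h) {T' : E ≃ₗᵢ[ℝ] E} {r' h' : ℝ}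
    {g : ℝ × ℝ → ℝ} (G : GrBox Y q T' r' h' g) {ρ : ℝ} (hρ : 0 < ρ)
    (hs : ball q ρ ⊆ Bx T p r h) (hs' : ball q ρ ⊆ Bx T' q r' h') :
    ∃ y ∈ ball q ρ, y ∈ Y ∧ (co T p y).1 ∈ A := by
  set V := ball q ρ with hV
  set φ : E → ℝ := fun x => (co T' q x).2 - g (co T' q x).1 with hφ
  have hφc : ContinuousOn φ V := by
    have h1 : ContinuousOn (fun x => g (co T' q x).1) V := by
      refine G.cont.comp ((continuous_fst.comp (continuous_co T' q)).continuousOn) ?_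
      intro x hx
      exact ((mem_Bx_iff T' q x).1 (hs' hx)).1
    exact ((continuous_snd.comp (continuous_co T' q)).continuousOn).sub h1
  have hφY : ∀ x ∈ V, (x ∈ Y ↔ φ x = 0) := by
    intro x hx
    rw [G.eq x (hs' hx), hφ]
    simp only [co, sub_eq_zero]
  -- the direction `e'`
  have hline : ∀ s : ℝ, φ (pt T' q (0, 0) s) = s := by
    intro s
    simp only [hφ]
    rw [co_pt]
    simp [G.zero]
  have hpt0 : pt T' q (0, 0) 0 = q := by
    have := pt_co T' q q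
    simpa [co] using this
  have hcontl : Continuous (fun s : ℝ => pt T' q (0, 0) s) :=
    (continuous_pt T' q).comp (continuous_const.prodMk continuous_id)
  have hneg : q ∈ closure {x | x ∈ V ∧ φ x < 0} := by
    rw [mem_closure_iff_nhds]
    intro W hW
    have h1 : (fun s : ℝ => pt T' q (0, 0) s) ⁻¹' (W ∩ V) ∈ 𝓝 (0 : ℝ) := by
      apply hcontl.continuousAt
      show _ ∈ 𝓝 (pt T' q (0, 0) 0)
      rw [hpt0]
      exact Filter.inter_mem hW (ball_mem_nhds q hρ)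
    obtain ⟨ε, hε, h2⟩ := Metric.mem_nhds_iff.1 h1
    have h3 : (-(ε / 2)) ∈ ball (0 : ℝ) ε := by
      rw [mem_ball, Real.dist_eq]
      simp only [sub_zero, abs_neg]
      rw [abs_of_pos (by positivity)]; linarith
    have h4 := h2 h3
    refine ⟨pt T' q (0, 0) (-(ε / 2)), h4.1, h4.2, ?_⟩
    rw [hline]; linarith
  have hpos : q ∈ closure {x | x ∈ V ∧ 0 < φ x} := by
    rw [mem_closure_iff_nhds]
    intro W hW
    have h1 : (fun s : ℝ => pt T' q (0, 0) s) ⁻¹' (W ∩ V) ∈ 𝓝 (0 : ℝ) := by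
      apply hcontl.continuousAt
      show _ ∈ 𝓝 (pt T' q (0, 0) 0)
      rw [hpt0]
      exact Filter.inter_mem hW (ball_mem_nhds q hρ)
    obtain ⟨ε, hε, h2⟩ := Metric.mem_nhds_iff.1 h1
    have h3 : ((ε / 2)) ∈ ball (0 : ℝ) ε := by
      rw [mem_ball, Real.dist_eq]
      simp only [sub_zero]
      rw [abs_of_pos (by positivity)]; linarith
    have h4 := h2 h3
    refine ⟨pt T' q (0, 0) (ε / 2), h4.1, h4.2, ?_⟩
    rw [hline]; positivity
  -- a small vertical vector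
  obtain ⟨v, hvV, hvY, hvert⟩ : ∃ v : E, q + v ∈ V ∧ q + v ∉ Y ∧ ∀ (z : E) (u : ℝ),
      (co T p (z + u • v)).1 = (co T p z).1 := by
    set a := (co T p q).1 with ha
    set t := (co T p q).2 with ht
    obtain ⟨haS, htI⟩ := (mem_Bx_iff T p q).1 hq
    have hqe : pt T p a t = q := pt_co T p q
    have hc1 : Continuous (fun s : ℝ => pt T p a s) :=
      (continuous_pt T p).comp (continuous_const.prodMk continuous_id)
    have h1 : (fun s : ℝ => pt T p a s) ⁻¹' V ∈ 𝓝 t := by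
      apply hc1.continuousAt
      show _ ∈ 𝓝 (pt T p a t)
      rw [hqe]
      exact ball_mem_nhds q hρ
    have h2 := H.fin a haS
    have h3 : ∃ s ∈ (fun s : ℝ => pt T p a s) ⁻¹' V, s ∉ {t' | t' ∈ Ioo (-h) h ∧ pt T p a t' ∈ Y} := by
      by_contra hcon
      push Not at hcon
      have h4 : ((fun s : ℝ => pt T p a s) ⁻¹' V).Finite := h2.subset hcon
      exact infinite_of_mem_nhds t h1 h4
    obtain ⟨s, hs1, hs2⟩ := h3
    have hs3 : s ∈ Ioo (-h) h := by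
      have := hs hs1
      have := ((mem_Bx_iff T p _).1 this).2
      rwa [co_pt] at this
    refine ⟨pt T p a s - q, ?_, ?_, ?_⟩
    · rw [add_sub_cancel]; exact hs1
    · rw [add_sub_cancel]
      intro h5
      exact hs2 ⟨hs3, h5⟩
    · intro z u
      have hv : pt T p a s - q = T.symm (!₂[0, 0, s - t] : E) := by
        have : q = p + T.symm !₂[a.1, a.2, t] := hqe.symm
        rw [this]
        simp only [pt]
        rw [add_sub_add_left_eq_sub, ← map_sub]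
        congr 1
        ext i; fin_cases i <;> simp
      rw [hv]
      simp only [co]
      have : T (z + u • T.symm (!₂[0, 0, s - t] : E) - p) = T (z - p) + u • (!₂[0, 0, s - t] : E) := by
        rw [add_sub_right_comm, map_add, map_smul]
        simp
      rw [this]
      simp
  -- reduce to the crossing lemma
  have main : ∀ (ψ : E → ℝ), ContinuousOn ψ V → (∀ x ∈ V, (x ∈ Y ↔ ψ x = 0)) →
      q ∈ closure {x | x ∈ V ∧ ψ x < 0} → 0 < ψ (q + v) →
      ∃ y ∈ V, y ∈ Y ∧ (co T p y).1 ∈ A := by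
    intro ψ hψ hψY hcl hv0
    obtain ⟨hO, ⟨z0, hz0⟩, hcr⟩ := cross isOpen_ball (convex_ball q ρ) hψ
      (mem_ball_self hρ) hcl hvV hv0
    set a := (co T p z0).1 with ha
    set t := (co T p z0).2 with ht
    obtain ⟨haS, htI⟩ := (mem_Bx_iff T p z0).1 (hs hz0.1)
    have hze : pt T p a t = z0 := pt_co T p z0
    have hc1 : Continuous (fun b : ℝ × ℝ => pt T p b t) :=
      (continuous_pt T p).comp (continuous_id.prodMk continuous_const)
    have h1 := hc1.continuousAt (x := a)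
    have h2 := h1 (by
      show _ ∈ 𝓝 (pt T p a t)
      rw [hze]
      exact hO.mem_nhds hz0)
    obtain ⟨b, hb1, hb2⟩ := mem_closure_iff_nhds.1 (H.Adense haS) _ h2
    obtain ⟨u, hu1, hu2⟩ := hcr _ hb1
    refine ⟨_, hu1, (hψY _ hu1).2 hu2, ?_⟩
    rw [hvert]
    show (co T p (pt T p b t)).1 ∈ A
    rw [co_pt]
    exact hb2
  have hne : φ (q + v) ≠ 0 := fun h0 => hvY ((hφY _ hvV).2 h0)
  rcases lt_or_gt_of_ne hne with hlt | hgt
  · refine main (fun x => - φ x) hφc.neg (fun x hx => ?_) ?_ (by simpa using hlt)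
    · rw [hφY x hx]; simp
    · simpa using hpos
  · exact main φ hφc hφY hneg hgt

/-- module SGN -/
theorem sgn (hD : T_DCH) : T_SGN := by
  intro Y p T r h A H
  refine ⟨sg H, sg_lc H, ?_⟩
  intro q hq hG
  obtain ⟨hor, -⟩ := hD Y (Bx T p r h) (sg H) q (isOpen_Bx T p r h) hq (sg_lc H) hG
  rcases hor with hF | hN
  · exact hF
  exfalso
  obtain ⟨T', r', h', g, G, c, hc⟩ := hN
  have hqB' : q ∈ Bx T' q r' h' := by
    rw [mem_Bx_iff]
    simp only [co, sub_self, map_zero, Sq, mem_setOf_eq]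
    exact ⟨⟨by simpa using G.rpos, by simpa using G.rpos⟩, by simpa using G.hpos⟩
  have hnh : Bx T p r h ∩ Bx T' q r' h' ∈ 𝓝 q :=
    Filter.inter_mem ((isOpen_Bx T p r h).mem_nhds hq) ((isOpen_Bx T' q r' h').mem_nhds hqB')
  obtain ⟨ρ, hρ, hsub⟩ := Metric.mem_nhds_iff.1 hnh
  obtain ⟨y, hyV, hyY, hyA⟩ := exists_over H hq G hρ (fun x hx => (hsub hx).1)
    (fun x hx => (hsub hx).2)
  set b := (co T p y).1 with hb
  set t := (co T p y).2 with ht
  have hye : pt T p b t = y := pt_co T p y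
  obtain ⟨hbS, htI⟩ := (mem_Bx_iff T p y).1 (hsub hyV).1
  obtain ⟨ε, hε, η, hη, g1, -, hg1, hg2⟩ := H.loc b hyA t htI (by rw [hye]; exact hyY)
  have hloc : ∀ u, |u - t| < ε → (pt T p b u ∈ Y ↔ u = t) := by
    intro u hu
    have := (hg2 b (mem_ball_self hη)).2 u hu
    rw [hg1] at this
    exact this
  have hc1 : Continuous (fun s : ℝ => pt T p b s) :=
    (continuous_pt T p).comp (continuous_const.prodMk continuous_id)
  have h1 : (fun s : ℝ => pt T p b s) ⁻¹' (ball q ρ) ∈ 𝓝 t := by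
    apply hc1.continuousAt
    show _ ∈ 𝓝 (pt T p b t)
    rw [hye]
    exact isOpen_ball.mem_nhds hyV
  obtain ⟨δ, hδ, h2⟩ := Metric.mem_nhds_iff.1 h1
  set d := min (δ / 2) (ε / 2) with hd
  have hd0 : 0 < d := by positivity
  have hdδ : d < δ := lt_of_le_of_lt (min_le_left _ _) (by linarith)
  have hdε : d < ε := lt_of_le_of_lt (min_le_right _ _) (by linarith)
  have hp : pt T p b (t + d) ∈ ball q ρ := h2 (by
    rw [mem_ball, Real.dist_eq, add_sub_cancel_left, abs_of_pos hd0]; exact hdδ)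
  have hm : pt T p b (t - d) ∈ ball q ρ := h2 (by
    rw [mem_ball, Real.dist_eq, sub_sub_cancel_left, abs_neg, abs_of_pos hd0]; exact hdδ)
  have hpI : t + d ∈ Ioo (-h) h := by
    have := ((mem_Bx_iff T p _).1 (hsub hp).1).2
    rwa [co_pt] at this
  have hmI : t - d ∈ Ioo (-h) h := by
    have := ((mem_Bx_iff T p _).1 (hsub hm).1).2
    rwa [co_pt] at this
  have hpY : pt T p b (t + d) ∉ Y := by
    intro h3
    have := (hloc (t + d) (by rw [add_sub_cancel_left, abs_of_pos hd0]; exact hdε)).1 h3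
    linarith
  have hmY : pt T p b (t - d) ∉ Y := by
    intro h3
    have := (hloc (t - d) (by rw [sub_sub_cancel_left, abs_neg, abs_of_pos hd0]; exact hdε)).1 h3
    linarith
  have e1 := sg_eq H hyA hpI hpY
  have e2 := sg_eq H hyA hmI hmY
  have e3 := NN_succ H hbS hd0 htI.1 hpI.2
    (fun u hu => hloc u (lt_of_le_of_lt hu hdε))
  rw [e3, pow_succ, ← e2, hc _ (hsub hp).2 hpY, hc _ (hsub hm).2 hmY] at e1
  have : (c : ℤ) = (c * -1 : ℤˣ) := congrArg _ e1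
  rcases Int.units_eq_one_or c with hc1 | hc1 <;> rw [hc1] at this <;> norm_num at this

end Pool.Agent.H97.IC
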